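import Pool.Agent.Q161.ESG.Stm5
import Pool.Agent.Y723.HJ.Loc

/-!
# Project ESG, job GRPJ: the Selmer group of the Jacobian, `J(ℚ)/2` and the Tate-Shafarevich group
-/

set_option autoImplicit false

namespace Pool.Agent.Q129.ESG

open Polynomial Ideal

open Pool.Agent.Y723.HJ (CR OddM HF nm cl mi clmap clmap_mi exists_cl_mi halve_cl galQB charQB
  locConst_apply)
open Pool.Agent.Q161.ESG

lemma hfpol {H : HP} (hs : (H.pol.map (Int.castRingHom ℚ)).Separable) (L : Type) [Field L]
    [CharZero L] : HF (pol H L) :=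
  { instOddM H L with
    sep := by
      have h : pol H L = (H.pol.map (Int.castRingHom ℚ)).map (algebraMap ℚ L) := by
        unfold pol
        rw [Polynomial.map_map]
        congr 1
        exact RingHom.ext_int _ _
      rw [h]
      exact hs.map
    two := two_ne_zero }

section basic

variable {H : HP}

lemma exists_mi' {L : Type} [Field L] [HF (pol H L)] (P : Jac H L) :
    ∃ u v : L[X], u.Monic ∧ P = (cl (mi (pol H L) u v) : ClassGroup (CR (pol H L))) := by
  obtain ⟨u, v, hu, _, h⟩ := exists_cl_mi (f := pol H L) P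
  exact ⟨u, v, hu, h.symm⟩

lemma pointMap_mi {F L : Type} [Field F] [Field L] [HF (pol H F)] [HF (pol H L)] (φ : F →+* L)
    {u v : F[X]} (hu : u ≠ 0) :
    pointMap H φ (cl (mi (pol H F) u v) : ClassGroup (CR (pol H F))) =
      (cl (mi (pol H L) (u.map φ) (v.map φ)) : ClassGroup (CR (pol H L))) :=
  clmap_mi φ (pol_map H φ) hu

lemma pointMap_comp {F L E : Type} [Field F] [Field L] [Field E] [HF (pol H F)] [HF (pol H L)]
    [HF (pol H E)] (φ : F →+* L) (ψ : L →+* E) (P : Jac H F) :
    pointMap H ψ (pointMap H φ P) = pointMap H (ψ.comp φ) P := by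
  obtain ⟨u, v, hu, rfl⟩ := exists_mi' P
  rw [pointMap_mi _ hu.ne_zero, pointMap_mi _ (hu.map φ).ne_zero, pointMap_mi _ hu.ne_zero,
    Polynomial.map_map, Polynomial.map_map]

lemma pointMap_sub {F L : Type} [Field F] [Field L] (φ : F →+* L) (P Q : Jac H F) :
    pointMap H φ (P - Q) = pointMap H φ P - pointMap H φ Q :=
  map_sub (pointHom H φ) P Q

lemma act_sub (σ : GQ) (P Q : Jac H QB) : act H σ (P - Q) = act H σ P - act H σ Q :=
  pointMap_sub _ P Q

lemma act_mul [HF (pol H QB)] (σ τ : GQ) (R : Jac H QB) :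
    act H (σ * τ) R = act H σ (act H τ R) :=
  (pointMap_comp (τ : QB →+* QB) (σ : QB →+* QB) R).symm

lemma lc_map (p : QB[X]) : IsLocallyConstant (fun σ : GQ => p.map (σ : QB →+* QB)) := by
  have := galQB
  induction p using Polynomial.induction_on' with
  | add p q hp hq =>
    have h : (fun σ : GQ => (p + q).map (σ : QB →+* QB)) =
        (fun σ : GQ => p.map (σ : QB →+* QB)) + (fun σ : GQ => q.map (σ : QB →+* QB)) := by
      funext σ
      rw [Pi.add_apply, Polynomial.map_add]
    rw [h]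
    exact hp.add hq
  | monomial n c =>
    have h : (fun σ : GQ => (monomial n c).map (σ : QB →+* QB)) =
        (fun x : QB => monomial n x) ∘ (fun σ : GQ => σ c) := by
      funext σ
      rw [Polynomial.map_monomial]
      rfl
    rw [h]
    exact (locConst_apply c).comp _

lemma lc_act [HF (pol H QB)] (P : Jac H QB) : IsLocallyConstant (fun σ : GQ => act H σ P) := by
  obtain ⟨u, v, hu, rfl⟩ := exists_mi' P
  have h2 : (fun σ : GQ => act H σ (cl (mi (pol H QB) u v) : ClassGroup (CR (pol H QB)))) =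
      (fun w : QB[X] × QB[X] => ((cl (mi (pol H QB) w.1 w.2) :
        ClassGroup (CR (pol H QB))) : Jac H QB)) ∘
        (fun σ : GQ => (u.map (σ : QB →+* QB), v.map (σ : QB →+* QB))) := by
    funext σ
    exact pointMap_mi _ hu.ne_zero
  rw [h2]
  exact ((lc_map u).prodMk (lc_map v)).comp _

/-- coboundaries are trivial at all places -/
lemma cob_loc (hs : (H.pol.map (Int.castRingHom ℚ)).Separable) [HF (pol H QB)] (R : Jac H QB)
    (K : Type) [Field K] [Algebra ℚ K] : LocallyTrivial H K (fun σ => act H σ R - R) := by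
  intro ι
  have hcQ := charQB
  have : CharZero K := algebraRat.charZero K
  have : HF (pol H (AlgebraicClosure K)) := hfpol hs _
  refine ⟨pointMap H (ι : QB →+* AlgebraicClosure K) R, fun τ σ hc => ?_⟩
  have h : pointMap H (ι : QB →+* AlgebraicClosure K) (act H σ R) =
      pointMap H (τ : AlgebraicClosure K →+* AlgebraicClosure K)
        (pointMap H (ι : QB →+* AlgebraicClosure K) R) := by
    have h1 : (ι : QB →+* AlgebraicClosure K).comp (σ : QB →+* QB) =
        (τ : AlgebraicClosure K →+* AlgebraicClosure K).comp (ι : QB →+* AlgebraicClosure K) :=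
      RingHom.ext fun x => (hc x).symm
    exact (pointMap_comp _ _ R).trans ((congrArg (fun φ => pointMap H φ R) h1).trans
      (pointMap_comp _ _ R).symm)
  exact (pointMap_sub _ (act H σ R) R).trans
    (congrArg (fun z => z - pointMap H (ι : QB →+* AlgebraicClosure K) R) h)

/-- coboundaries are locally trivial cocycles -/
lemma cob_sha (hs : (H.pol.map (Int.castRingHom ℚ)).Separable) [HF (pol H QB)] (R : Jac H QB) :
    IsShaCocycle H (fun σ => act H σ R - R) := by
  refine ⟨⟨(lc_act R).sub (IsLocallyConstant.const R), ?_⟩, fun p _ => cob_loc hs R _,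
    cob_loc hs R _⟩
  intro σ τ
  show act H (σ * τ) R - R = (act H σ R - R) + act H σ (act H τ R - R)
  rw [act_mul, act_sub]
  abel

/-- halving -/
lemma halve {L : Type} [Field L] [IsAlgClosed L] [HF (pol H L)] (Q : Jac H L) :
    ∃ P : Jac H L, P + P = Q := by
  obtain ⟨c, hc⟩ := halve_cl (f := pol H L) Q
  refine ⟨c, ?_⟩
  rw [pow_two] at hc
  exact hc

/-- every class killed by two has a representative with values in the points of order two -/
lemma exists_good (hs : (H.pol.map (Int.castRingHom ℚ)).Separable) [HF (pol H QB)]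
    (c : ShaTorsion H 2) : ∃ f : selJ H, (QuotientAddGroup.mk ⟨f.1, f.2.1⟩ :
      shaCocycles H ⧸ (coboundaries H).addSubgroupOf (shaCocycles H)) = c.1 := by
  obtain ⟨c, hc⟩ := c
  obtain ⟨f0, rfl⟩ := QuotientAddGroup.mk_surjective c
  have h1 : 2 • f0 ∈ (coboundaries H).addSubgroupOf (shaCocycles H) := by
    rw [← QuotientAddGroup.eq_zero_iff]
    exact hc
  rw [AddSubgroup.mem_addSubgroupOf] at h1
  obtain ⟨Q, hQ⟩ := h1
  obtain ⟨R, hR⟩ := halve Q
  have hcob := cob_sha hs R
  have hcob' : (fun σ : GQ => act H σ R - R) ∈ shaCocycles H := hcob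
  refine ⟨⟨f0.1 - (fun σ : GQ => act H σ R - R), (shaCocycles H).sub_mem f0.2 hcob', fun σ => ?_⟩,
    ?_⟩
  · have h2 := hQ σ
    show (f0.1 σ - (act H σ R - R)) + (f0.1 σ - (act H σ R - R)) = 0
    have h3 : f0.1 σ + f0.1 σ = act H σ Q - Q := by
      rw [← h2, two_nsmul]
      rfl
    have h4 : (f0.1 σ - (act H σ R - R)) + (f0.1 σ - (act H σ R - R)) =
        (f0.1 σ + f0.1 σ) - (act H σ (R + R) - (R + R)) := by
      rw [act_add]
      abel
    rw [h4, hR, h3, sub_self]
  · show (QuotientAddGroup.mk _ : shaCocycles H ⧸ (coboundaries H).addSubgroupOf (shaCocycles H)) =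
      QuotientAddGroup.mk _
    rw [QuotientAddGroup.eq, AddSubgroup.mem_addSubgroupOf]
    refine ⟨R, fun σ => ?_⟩
    show -(f0.1 σ - (act H σ R - R)) + f0.1 σ = act H σ R - R
    abel

/-- the Kummer cocycle of a rational point -/
lemma exists_kum (hs : (H.pol.map (Int.castRingHom ℚ)).Separable) [HF (pol H QB)] (P : JacQ H) :
    ∃ R : Jac H QB, R + R = P.1 ∧ (fun σ => act H σ R - R) ∈ selJ H := by
  obtain ⟨R, hR⟩ := halve P.1
  refine ⟨R, hR, cob_sha hs R, fun σ => ?_⟩
  show (act H σ R - R) + (act H σ R - R) = 0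
  rw [sub_add_sub_comm, ← act_add, hR, P.2 σ, sub_self]

/-- the injection -/
lemma exists_inj (hs : (H.pol.map (Int.castRingHom ℚ)).Separable) [HF (pol H QB)] :
    ∃ Ψ : ShaTorsion H 2 × (JacQ H ⧸ (nsmulAddMonoidHom 2 : JacQ H →+ JacQ H).range) → Sel2J H,
      Function.Injective Ψ := by
  choose f hfc using fun c : ShaTorsion H 2 => exists_good hs c
  choose R hR hRs using fun P : JacQ H => exists_kum hs P
  refine ⟨fun x => QuotientAddGroup.mk (f x.1 + ⟨_, hRs x.2.out⟩), ?_⟩
  rintro ⟨c, x⟩ ⟨c', x'⟩ hxx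
  have h1 : (QuotientAddGroup.mk (f c + ⟨_, hRs x.out⟩) : Sel2J H) =
    QuotientAddGroup.mk (f c' + ⟨_, hRs x'.out⟩) := hxx
  rw [QuotientAddGroup.eq, AddSubgroup.mem_addSubgroupOf] at h1
  obtain ⟨T, hT, h2⟩ := h1
  have h2' : ∀ σ : GQ, -((f c).1 σ + (act H σ (R x.out) - R x.out)) +
      ((f c').1 σ + (act H σ (R x'.out) - R x'.out)) = act H σ T - T := h2
  have h3 : c = c' := by
    apply Subtype.ext
    rw [← hfc c, ← hfc c']
    show (QuotientAddGroup.mk _ : shaCocycles H ⧸ (coboundaries H).addSubgroupOf (shaCocycles H)) =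
      QuotientAddGroup.mk _
    rw [QuotientAddGroup.eq, AddSubgroup.mem_addSubgroupOf]
    refine ⟨T + R x.out - R x'.out, fun σ => ?_⟩
    show -(f c).1 σ + (f c').1 σ = _
    rw [act_sub, act_add]
    have h4 := h2' σ
    have h5 : act H σ T = -((f c).1 σ + (act H σ (R x.out) - R x.out)) +
      ((f c').1 σ + (act H σ (R x'.out) - R x'.out)) + T := by
      rw [h4]
      abel
    rw [h5]
    abel
  subst h3
  have h4 : ∀ σ : GQ, act H σ (R x'.out - R x.out - T) = R x'.out - R x.out - T := by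
    intro σ
    have h5 := h2' σ
    rw [act_sub, act_sub]
    have h6 : act H σ (R x'.out) = act H σ T - T + (act H σ (R x.out) - R x.out) + R x'.out := by
      rw [← h5]
      abel
    rw [h6]
    abel
  have h5 : x = x' := by
    have h6 : (⟨R x'.out - R x.out - T, h4⟩ : JacQ H) + ⟨R x'.out - R x.out - T, h4⟩ =
        x'.out - x.out := by
      apply Subtype.ext
      show (R x'.out - R x.out - T) + (R x'.out - R x.out - T) = (x'.out).1 - (x.out).1
      rw [← hR, ← hR]
      have e7 : R x'.out - R x.out - T + (R x'.out - R x.out - T) =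
        (R x'.out + R x'.out) - (R x.out + R x.out) - (T + T) := by abel
      rw [e7, hT, sub_zero]
    have h7 : (QuotientAddGroup.mk x.out :
        JacQ H ⧸ (nsmulAddMonoidHom 2 : JacQ H →+ JacQ H).range) = QuotientAddGroup.mk x'.out := by
      rw [QuotientAddGroup.eq, AddMonoidHom.mem_range]
      refine ⟨⟨R x'.out - R x.out - T, h4⟩, ?_⟩
      rw [nsmulAddMonoidHom_apply, two_nsmul, h6]
      abel
    rw [QuotientAddGroup.out_eq', QuotientAddGroup.out_eq'] at h7
    exact h7
  rw [h5]

end basic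

/-- JOB GRPJ -/
theorem grpj : S_GRPJ := by
  intro H hs hfin
  have : HF (pol H QB) := by
    have := charQB
    exact hfpol hs _
  obtain ⟨Ψ, hΨ⟩ := exists_inj hs
  have hf := Finite.of_injective Ψ hΨ
  have h1 : Finite (ShaTorsion H 2) :=
    Finite.of_injective (fun c => ((c, 0) : ShaTorsion H 2 ×
      (JacQ H ⧸ (nsmulAddMonoidHom 2 : JacQ H →+ JacQ H).range)))
      (fun c c' h => (Prod.ext_iff.1 h).1)
  have h2 : Finite (JacQ H ⧸ (nsmulAddMonoidHom 2 : JacQ H →+ JacQ H).range) :=
    Finite.of_injective (fun c => ((⟨0, smul_zero 2⟩, c) : ShaTorsion H 2 ×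
      (JacQ H ⧸ (nsmulAddMonoidHom 2 : JacQ H →+ JacQ H).range)))
      (fun c c' h => (Prod.ext_iff.1 h).2)
  refine ⟨h2, h1, ?_⟩
  calc Nat.card (QuotQ H 2) * Nat.card (ShaTorsion H 2)
      = Nat.card (ShaTorsion H 2 × (JacQ H ⧸ (nsmulAddMonoidHom 2 : JacQ H →+ JacQ H).range)) := by
        rw [Nat.card_prod, mul_comm]
        rfl
    _ ≤ Nat.card (Sel2J H) := Nat.card_le_card_of_injective Ψ hΨ

end Pool.Agent.Q129.ESG
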